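import Pool.Agent.H477.E.StmC
import Pool.Graph.R_seed8.Y24.E1

set_option autoImplicit false

/-!
`S_UNIT` of project E (helper477): the number of zeros of `Xi^{(k)}` in a disc of radius `2`.
-/

open Finset Complex Filter Topology Metric Set MeasureTheory

namespace Pool.Agent.H120.E13

open Pool.Agent.Helper242.KK (FT Ph)
open Pool.Agent.H477.Jen

section

variable {Xi Z : ℂ → ℂ} {H : ℝ → ℂ} {lam : ℝ → ℂ} {C κ : ℝ} {B : ℕ}

theorem upper (h : Loc Xi Z H lam C κ B) : ∃ P : ℝ, 0 < P ∧ ∀ᶠ t : ℝ in atTop, ∀ v : ℂ, ‖v‖ ≤ 12 →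
    ‖Xi (t + v)‖ ≤ ‖H t‖ * Real.exp (P * Real.log t) := by
  have hC := h.C1
  have hκ := h.κpos
  set P : ℝ := 24 * κ + 12 * C + (Real.log (2 * C) + B * Real.log 2) + B with hP
  have hl2C : 0 ≤ Real.log (2 * C) := Real.log_nonneg (by linarith)
  have hBl : 0 ≤ (B:ℝ) * Real.log 2 := mul_nonneg (Nat.cast_nonneg B) (Real.log_nonneg (by norm_num))
  have hB0 : (0:ℝ) ≤ B := Nat.cast_nonneg B
  refine ⟨P, by positivity, ?_⟩
  filter_upwards [h.ev, eventually_ge_atTop (169 * C), eventually_ge_atTop (C + 12)] with t ht h9 h10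
  obtain ⟨⟨h1, h2⟩, ⟨h3, h4, h5⟩, h6, h7, h8⟩ := ht
  have ht0 : 0 < t := by linarith
  have hlow : ∀ v : ℂ, v.im ≤ 0 → ‖v‖ ≤ 12 →
      ‖Xi (t + v)‖ ≤ ‖H t‖ * Real.exp (P * Real.log t) := by
    intro v hv0 hv
    have hvn := norm_nonneg v
    obtain ⟨θ, hθ1, hθ2⟩ := h.fact t h1 v hv0 (by nlinarith)
    have hθ : ‖1 + θ‖ ≤ 2 := by
      have hθ : ‖θ‖ ≤ 1 := by
        refine hθ1.trans ?_
        rw [div_le_one ht0]
        calc C * (1 + ‖v‖) ^ 2 ≤ C * (1 + 12) ^ 2 := by gcongr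
          _ = 169 * C := by ring
          _ ≤ t := h9
      have := norm_add_le (1:ℂ) θ
      rw [norm_one] at this
      linarith
    have e2 : ‖exp (I * lam t * v)‖ ≤ Real.exp (24 * κ * Real.log t + 12 * C) := by
      refine (norm_exp_lam h h1 (by linarith) v).trans (Real.exp_le_exp.2 ?_)
      have a1 : |v.im| ≤ 12 := (abs_im_le_norm v).trans hv
      have a2 : |v.re| ≤ 12 := (abs_re_le_norm v).trans hv
      have a3 : (lam t).re * |v.im| ≤ (2 * κ * Real.log t) * 12 :=
        mul_le_mul h8 a1 (abs_nonneg _) (by positivity)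
      have a4 : C * |v.re| ≤ C * 12 := mul_le_mul_of_nonneg_left a2 (by linarith)
      linarith
    have e3 : ‖Z (t + v)‖ ≤ C * (2 * t) ^ B := by
      have hre : C ≤ ((t:ℂ) + v).re := by
        have h12 : ((t:ℂ) + v).re = t + v.re := by simp
        rw [h12]
        have := neg_abs_le v.re
        have := abs_re_le_norm v
        linarith
      refine (h.crude (t + v) hre (by simpa using hv0)).trans ?_
      have h12 : ‖(t:ℂ) + v‖ ≤ 2 * t := by
        refine (norm_add_le _ _).trans ?_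
        rw [norm_real, Real.norm_eq_abs, abs_of_pos ht0]
        linarith
      gcongr
    have e4 : 2 * (C * (2 * t) ^ B) =
        Real.exp (Real.log (2 * C) + B * (Real.log 2 + Real.log t)) := by
      rw [Real.exp_add, Real.exp_log (by positivity), ← Real.log_mul (by norm_num) (by linarith),
        ← Real.log_pow, Real.exp_log (by positivity)]
      ring
    rw [hθ2, norm_mul, norm_mul, norm_mul]
    calc ‖H t‖ * ‖exp (I * lam t * v)‖ * ‖1 + θ‖ * ‖Z (t + v)‖
        ≤ ‖H t‖ * Real.exp (24 * κ * Real.log t + 12 * C) * 2 * (C * (2 * t) ^ B) := by gcongr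
      _ = ‖H t‖ * (Real.exp (24 * κ * Real.log t + 12 * C) * (2 * (C * (2 * t) ^ B))) := by ring
      _ = ‖H t‖ * Real.exp (24 * κ * Real.log t + 12 * C +
            (Real.log (2 * C) + B * (Real.log 2 + Real.log t))) := by
          rw [e4, ← Real.exp_add]
      _ ≤ ‖H t‖ * Real.exp (P * Real.log t) := by
          refine mul_le_mul_of_nonneg_left (Real.exp_le_exp.2 ?_) (norm_nonneg _)
          have b1 : (12 * C + (Real.log (2 * C) + B * Real.log 2)) * 1 ≤
              (12 * C + (Real.log (2 * C) + B * Real.log 2)) * Real.log t :=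
            mul_le_mul_of_nonneg_left h3 (by positivity)
          rw [hP]
          linarith
  intro v hv
  rcases le_total v.im 0 with h0 | h0
  · exact hlow v h0 hv
  · have := hlow ((starRingEnd ℂ) v) (by simpa using h0) (by rwa [norm_conj])
    have e : (t:ℂ) + (starRingEnd ℂ) v = (starRingEnd ℂ) (t + v) := by simp
    rw [e, h.conj, norm_conj] at this
    exact this

/-- comparison with an exponential near `t - 3i` -/
theorem compare (h : Loc Xi Z H lam C κ B) : ∃ A : ℝ, 1 ≤ A ∧ ∀ᶠ t : ℝ in atTop,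
    ‖H t‖ ≤ ‖H t * exp (I * lam t * (-(3 * I)))‖ ∧
    ‖H t * exp (I * lam t * (-(3 * I)))‖ ≤ A * ‖Xi (t + -(3 * I))‖ ∧
    ∀ v : ℂ, ‖v‖ ≤ 1 → ‖Xi (t + -(3 * I) + v) - exp (I * lam t * v) * Xi (t + -(3 * I))‖ ≤
      ‖H t * exp (I * lam t * (-(3 * I)))‖ * ‖exp (I * lam t * v)‖ * (A * (‖v‖ + 1 / t)) := by
  have hC := h.C1
  obtain ⟨A1, hA1, hA⟩ := h.good (1 / 2) (by norm_num)
  obtain ⟨A2, hA2, hL⟩ := h.lip (δ := 1 / 2) (by norm_num)
  refine ⟨2 * A1 + A2 + 2 * (A1 * (25 * C)), by nlinarith, ?_⟩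
  filter_upwards [h.ev, eventually_ge_atTop (50 * C)] with t ht h9
  obtain ⟨⟨h1, h2⟩, ⟨h3, h4, h5⟩, h6, h7, h8⟩ := ht
  have ht0 : 0 < t := by linarith
  have hfact : ∀ v : ℂ, ‖v‖ ≤ 1 → ∃ θ : ℂ, ‖θ‖ ≤ 25 * C / t ∧
      Xi (t + -(3 * I) + v) = H t * exp (I * lam t * (-(3 * I))) * exp (I * lam t * v) *
        ((1 + θ) * Z (t + -(3 * I) + v)) := by
    intro v hv
    have him : (-(3 * I) + v).im ≤ 0 := by
      have := (abs_im_le_norm v).trans hv
      have := (abs_le.1 this).2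
      simp
      linarith
    have hn : ‖-(3 * I) + v‖ ≤ 4 := by
      refine (norm_add_le _ _).trans ?_
      rw [norm_neg, norm_mul, norm_I, norm_ofNat]
      linarith
    obtain ⟨θ, hθ1, hθ2⟩ := h.fact t h1 (-(3 * I) + v) him (by
      have := norm_nonneg (-(3 * I) + v)
      nlinarith)
    refine ⟨θ, hθ1.trans ?_, ?_⟩
    · apply div_le_div_of_nonneg_right _ ht0.le
      calc C * (1 + ‖-(3 * I) + v‖) ^ 2 ≤ C * (1 + 4) ^ 2 := by gcongr
        _ = 25 * C := by ring
    · rw [add_assoc, hθ2, show I * lam t * (-(3 * I) + v) = I * lam t * (-(3 * I)) + I * lam t * v by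
        ring, exp_add]
      ring
  have him2 : ∀ v : ℂ, ‖v‖ ≤ 1 → ((t:ℂ) + -(3 * I) + v).im ≤ -(1 / 2) - 1 / 2 := by
    intro v hv
    have := (abs_im_le_norm v).trans hv
    have := (abs_le.1 this).2
    simp
    linarith
  obtain ⟨θ0, hθ0, hX0⟩ := hfact 0 (by simp)
  simp only [add_zero, mul_zero, exp_zero, mul_one] at hX0
  have hz0 := hA (t + -(3 * I)) (by simpa using him2 0 (by simp))
  have hθ0' : ‖θ0‖ ≤ 1 / 2 := by
    refine hθ0.trans ?_
    rw [div_le_div_iff₀ ht0 (by norm_num)]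
    linarith
  set G := H t * exp (I * lam t * (-(3 * I))) with hG
  have hGn : 0 ≤ ‖G‖ := norm_nonneg _
  refine ⟨?_, ?_, ?_⟩
  · rw [hG, norm_mul, norm_exp]
    have e : (I * lam t * (-(3 * I))).re = 3 * (lam t).re := by
      simp [mul_re, mul_im]
      ring
    rw [e]
    exact le_mul_of_one_le_right (norm_nonneg _) (Real.one_le_exp (by linarith))
  · have a1 : 1 / 2 ≤ ‖1 + θ0‖ := by
      have := norm_sub_norm_le (1:ℂ) (-θ0)
      rw [norm_one, norm_neg, sub_neg_eq_add] at this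
      linarith
    have a2 : 1 / A1 ≤ ‖Z (t + -(3 * I))‖ := hz0.2
    have a3 : ‖G‖ * (1 / 2 * (1 / A1)) ≤ ‖Xi (t + -(3 * I))‖ := by
      rw [hX0, norm_mul G, norm_mul (1 + θ0)]
      gcongr
    have a4 : ‖G‖ = (2 * A1) * (‖G‖ * (1 / 2 * (1 / A1))) := by
      field_simp
    rw [a4]
    calc (2 * A1) * (‖G‖ * (1 / 2 * (1 / A1))) ≤ (2 * A1) * ‖Xi (t + -(3 * I))‖ := by gcongr
      _ ≤ _ := by
        apply mul_le_mul_of_nonneg_right _ (norm_nonneg _)
        nlinarith
  · intro v hv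
    obtain ⟨θ, hθ, hX⟩ := hfact v hv
    have e1 : Xi (t + -(3 * I) + v) - exp (I * lam t * v) * Xi (t + -(3 * I)) =
        G * exp (I * lam t * v) * ((Z (t + -(3 * I) + v) - Z (t + -(3 * I))) +
          (θ * Z (t + -(3 * I) + v) - θ0 * Z (t + -(3 * I)))) := by
      rw [hX, hX0]
      ring
    rw [e1, norm_mul, norm_mul]
    refine mul_le_mul_of_nonneg_left ?_ (by positivity)
    have b1 : ‖Z (t + -(3 * I) + v) - Z (t + -(3 * I))‖ ≤ A2 * ‖v‖ := by
      have := hL (t + -(3 * I) + v) (t + -(3 * I)) (him2 v hv) (by simpa using him2 0 (by simp))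
      rwa [add_sub_cancel_left] at this
    have b2 : ‖θ * Z (t + -(3 * I) + v)‖ ≤ 25 * C / t * A1 := by
      rw [norm_mul]
      exact mul_le_mul hθ (hA _ (him2 v hv)).1 (norm_nonneg _) (by positivity)
    have b3 : ‖θ0 * Z (t + -(3 * I))‖ ≤ 25 * C / t * A1 := by
      rw [norm_mul]
      exact mul_le_mul hθ0 hz0.1 (norm_nonneg _) (by positivity)
    refine (norm_add_le _ _).trans ?_
    have b4 := norm_sub_le (θ * Z (t + -(3 * I) + v)) (θ0 * Z (t + -(3 * I)))
    have b5 : 0 ≤ ‖v‖ := norm_nonneg v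
    have b6 : 0 < 1 / t := by positivity
    have b7 : 25 * C / t * A1 = (A1 * (25 * C)) * (1 / t) := by ring
    have b8 : A2 * ‖v‖ + 2 * (A1 * (25 * C)) * (1 / t) ≤
        (2 * A1 + A2 + 2 * (A1 * (25 * C))) * (‖v‖ + 1 / t) := by
      have c1 : 0 ≤ (2 * A1 + 2 * (A1 * (25 * C))) * ‖v‖ := by positivity
      have c2 : 0 ≤ (2 * A1 + A2) * (1 / t) := by positivity
      nlinarith
    rw [b7] at b2 b3
    linarith

theorem iteratedDeriv_cmp {f : ℂ → ℂ} (hf : Differentiable ℂ f) (c l : ℂ) (k : ℕ) :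
    iteratedDeriv k (fun v : ℂ => f (c + v) - exp (I * l * v) * f c) 0 =
      iteratedDeriv k f c - (I * l) ^ k * f c := by
  have h1 := iteratedDeriv_affine hf c 1 k
  have h2 := iteratedDeriv_affine (f := exp) Complex.differentiable_exp 0 (I * l) k
  simp only [one_mul, one_pow, zero_add, iteratedDeriv_eq_iterate, Complex.iter_deriv_exp,
    Complex.exp_zero, mul_one] at h1 h2
  have h3 : ContDiffAt ℂ k (fun v : ℂ => f (c + v)) 0 := by
    have : Differentiable ℂ (fun v : ℂ => f (c + v)) := by fun_prop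
    exact this.contDiff.contDiffAt
  have h4 : ContDiffAt ℂ k (fun v : ℂ => exp (I * l * v) * f c) 0 := by
    have : Differentiable ℂ (fun v : ℂ => exp (I * l * v) * f c) := by fun_prop
    exact this.contDiff.contDiffAt
  have h5 := iteratedDeriv_fun_sub h3 h4
  have h6 : iteratedDeriv k (fun v : ℂ => exp (I * l * v) * f c) 0 = (I * l) ^ k * f c := by
    have : (fun v : ℂ => exp (I * l * v) * f c) = fun v => f c * exp (I * l * v) := by
      funext v; ring
    rw [this, iteratedDeriv_const_mul_field, iteratedDeriv_eq_iterate, h2]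
    ring
  rw [h5, h6, iteratedDeriv_eq_iterate, h1, iteratedDeriv_eq_iterate]

/-- the derivative at `t - 3i` is not small -/
theorem lower (h : Loc Xi Z H lam C κ B) : ∃ A : ℝ, 1 ≤ A ∧ ∀ k : ℕ, ∀ᶠ t : ℝ in atTop,
    ‖H t‖ ≤ A * ‖iteratedDeriv k Xi (t + -(3 * I))‖ := by
  obtain ⟨A, hA1, hA⟩ := compare h
  have hC := h.C1
  have hκ := h.κpos
  refine ⟨2 * A, by linarith, fun k => ?_⟩
  have hkf : (0:ℝ) < k.factorial := by exact_mod_cast k.factorial_pos
  have he := Real.exp_pos 1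
  set D : ℝ := 4 * A ^ 2 * Real.exp 1 * k.factorial with hD
  have hD0 : 0 < D := by positivity
  filter_upwards [h.ev, hA, ev_log (D / (κ / 2)), eventually_ge_atTop D] with t ht ht2 h9 h10
  obtain ⟨⟨h1, h2⟩, ⟨h3, h4, h5⟩, h6, h7, h8⟩ := ht
  obtain ⟨g1, g2, g3⟩ := ht2
  have ht0 : 0 < t := by linarith
  set l := lam t with hl
  set z1 : ℂ := t + -(3 * I) with hz1
  set G := H t * exp (I * l * (-(3 * I))) with hG
  have hln : l.re ≤ ‖l‖ := re_le_norm l
  have hl1 : 1 ≤ ‖l‖ := by linarith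
  have hl0 : 0 < ‖l‖ := by linarith
  have hlD : D ≤ ‖l‖ := by
    rw [div_le_iff₀ (by positivity)] at h9
    linarith
  set r : ℝ := 1 / ‖l‖ with hr
  have hr0 : 0 < r := by positivity
  have hr1 : r ≤ 1 := by
    rw [hr, div_le_one hl0]
    exact hl1
  have hrD : r ≤ 1 / D := one_div_le_one_div_of_le hD0 hlD
  have htD : 1 / t ≤ 1 / D := one_div_le_one_div_of_le hD0 h10
  have hGn : 0 ≤ ‖G‖ := norm_nonneg _
  have hcau := Complex.norm_iteratedDeriv_le_of_forall_mem_sphere_norm_le (n := k) (c := (0:ℂ))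
    (R := r) (C := ‖G‖ * Real.exp 1 * (A * (2 / D)))
    (f := fun v : ℂ => Xi (z1 + v) - exp (I * l * v) * Xi z1) hr0
    (by
      have := h.diff
      apply Differentiable.diffContOnCl
      fun_prop)
    (by
      intro v hv
      rw [mem_sphere_zero_iff_norm] at hv
      refine (g3 v (by rw [hv]; exact hr1)).trans ?_
      have e1 : ‖exp (I * l * v)‖ ≤ Real.exp 1 := by
        refine (Complex.norm_exp_le_exp_norm _).trans (Real.exp_le_exp.2 ?_)
        rw [norm_mul, norm_mul, norm_I, one_mul, hv, hr]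
        field_simp
        exact le_rfl
      have e2 : ‖v‖ + 1 / t ≤ 2 / D := by
        rw [hv]
        have : (2:ℝ) / D = 1 / D + 1 / D := by ring
        rw [this]
        exact add_le_add hrD htD
      gcongr)
  rw [iteratedDeriv_cmp h.diff] at hcau
  have e3 : (k.factorial : ℝ) * (‖G‖ * Real.exp 1 * (A * (2 / D))) / r ^ k =
      ‖l‖ ^ k * (‖G‖ / (2 * A)) := by
    rw [hr, hD, one_div, inv_pow, div_inv_eq_mul]
    field_simp
    ring
  rw [e3] at hcau
  have e4 : ‖(I * l) ^ k * Xi z1‖ = ‖l‖ ^ k * ‖Xi z1‖ := by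
    rw [norm_mul, norm_pow, norm_mul, norm_I, one_mul]
  have e5 : ‖G‖ / A ≤ ‖Xi z1‖ := by
    rw [div_le_iff₀ (by linarith)]
    linarith
  have e6 : ‖(I * l) ^ k * Xi z1‖ - ‖iteratedDeriv k Xi z1‖ ≤ ‖l‖ ^ k * (‖G‖ / (2 * A)) := by
    refine (norm_sub_norm_le _ _).trans ?_
    rw [norm_sub_rev]
    exact hcau
  have hlk : 1 ≤ ‖l‖ ^ k := one_le_pow₀ hl1
  have e7 : ‖l‖ ^ k * (‖G‖ / (2 * A)) ≤ ‖iteratedDeriv k Xi z1‖ := by
    rw [e4] at e6
    have e8 : ‖l‖ ^ k * (‖G‖ / A) ≤ ‖l‖ ^ k * ‖Xi z1‖ := by gcongr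
    have e9 : ‖l‖ ^ k * (‖G‖ / A) = 2 * (‖l‖ ^ k * (‖G‖ / (2 * A))) := by
      field_simp
    linarith
  have e8 : ‖G‖ / (2 * A) ≤ ‖iteratedDeriv k Xi z1‖ := by
    refine le_trans ?_ e7
    exact le_mul_of_one_le_left (by positivity) hlk
  rw [div_le_iff₀ (by linarith)] at e8
  linarith

/-- the number of zeros of the derivatives in a disc of radius `2` -/
theorem unit (h : Loc Xi Z H lam C κ B) : ∃ K : ℝ, 0 < K ∧ ∀ k : ℕ, ∃ T0 : ℝ, ∀ t : ℝ, T0 ≤ t →
    ∀ S : Finset ℂ, (∀ w ∈ S, iteratedDeriv k Xi w = 0 ∧ ‖w - t‖ ≤ 2) →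
    ∑ w ∈ S, (analyticOrderNatAt (iteratedDeriv k Xi) w : ℝ) ≤ K * Real.log t := by
  obtain ⟨P, hP0, hP⟩ := upper h
  obtain ⟨A, hA1, hA⟩ := lower h
  have hC := h.C1
  have hlA : 0 ≤ Real.log A := Real.log_nonneg hA1
  refine ⟨5 * (1 + P + Real.log A), by positivity, fun k => ?_⟩
  rw [← eventually_atTop]
  have hkf : (0:ℝ) < k.factorial := by exact_mod_cast k.factorial_pos
  filter_upwards [h.ev, hP, hA k, ev_log (Real.log k.factorial)] with t ht hPt hAt h9 S hS
  obtain ⟨⟨h1, h2⟩, ⟨h3, h4, h5⟩, h6, h7, h8⟩ := ht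
  have ht0 : 0 < t := by linarith
  have hH0 : 0 < ‖H t‖ := norm_pos_iff.2 (h.H0 t h1)
  set g := iteratedDeriv k Xi with hg
  have hgd : Differentiable ℂ g := by
    have : ContDiff ℂ (⊤ : ℕ∞) Xi := h.diff.contDiff
    have h10 := this.differentiable_iteratedDeriv k (by exact_mod_cast WithTop.coe_lt_top k)
    exact h10
  set c : ℂ := t + -(3 * I) with hc
  have hgc : g c ≠ 0 := by
    intro h0
    rw [h0, norm_zero, mul_zero] at hAt
    linarith
  have hgan : AnalyticOnNhd ℂ g (closedBall c 8) := fun z _ => hgd.analyticAt z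
  have hdist : ∀ w ∈ S, 0 < ‖c - w‖ ∧ ‖c - w‖ ≤ 5 := by
    intro w hw
    obtain ⟨a1, a2⟩ := hS w hw
    refine ⟨?_, ?_⟩
    · rw [norm_pos_iff, sub_ne_zero]
      rintro rfl
      exact hgc a1
    · have e : c - w = -(3 * I) - (w - t) := by rw [hc]; ring
      rw [e]
      refine (norm_sub_le _ _).trans ?_
      rw [norm_neg, norm_mul, norm_I, norm_ofNat]
      linarith
  -- scaling
  set a : ℂ := ((‖H t‖⁻¹ : ℝ) : ℂ) with ha
  have ha0 : a ≠ 0 := by
    rw [ha]
    exact_mod_cast (inv_pos.2 hH0).ne'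
  have han : ‖a‖ = ‖H t‖⁻¹ := by
    rw [ha, norm_real, Real.norm_eq_abs, abs_of_pos (inv_pos.2 hH0)]
  have hord : ∀ w : ℂ, analyticOrderNatAt (fun z => a * g z) w = analyticOrderNatAt g w := by
    intro w
    have h1 : analyticOrderAt ((fun _ : ℂ => a) * g) w = analyticOrderAt (fun _ : ℂ => a) w +
        analyticOrderAt g w := analyticOrderAt_mul analyticAt_const (hgd.analyticAt w)
    have h2 : analyticOrderAt (fun _ : ℂ => a) w = 0 :=
      analyticAt_const.analyticOrderAt_eq_zero.2 ha0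
    rw [h2, zero_add] at h1
    unfold analyticOrderNatAt
    rw [← h1]
    rfl
  have hgan' : AnalyticOnNhd ℂ (fun z => a * g z) (closedBall c 8) := fun z _ =>
    analyticAt_const.mul (hgd.analyticAt z)
  have hJ := Pool.Agent.Y24.jensen_low (h := fun z => a * g z) (c := c) (R := 8) (by norm_num)
    hgan' (mul_ne_zero ha0 hgc) S
    (analyticOrderNatAt g) (fun _ => 1 / 5)
    (fun w _ _ => (hord w).ge) (fun w _ => by norm_num)
    (fun w hw _ => by
      obtain ⟨a1, a2⟩ := hdist w hw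
      have a3 : (8:ℝ) / 5 ≤ 8 * ‖c - w‖⁻¹ := by
        rw [← div_eq_mul_inv, div_le_div_iff₀ (by norm_num) a1]
        linarith
      have a4 : (1:ℝ) / 5 ≤ Real.log (8 / 5) := by
        have := Real.one_sub_inv_le_log_of_pos (show (0:ℝ) < 8 / 5 by norm_num)
        norm_num at this
        linarith
      exact a4.trans (Real.log_le_log (by norm_num) a3))
    (fun w hw hwB => by
      exfalso
      apply hwB
      rw [mem_closedBall, dist_eq_norm']
      linarith [(hdist w hw).2])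
  have hkf1 : (1:ℝ) ≤ k.factorial := by exact_mod_cast k.factorial_pos
  have hbd : ∀ z ∈ sphere c |8|, Real.log ‖a * g z‖ ≤ Real.log k.factorial + P * Real.log t := by
    intro z hz
    rw [abs_of_pos (by norm_num : (0:ℝ) < 8), mem_sphere, dist_eq_norm] at hz
    have hb : ‖g z‖ ≤ k.factorial * (‖H t‖ * Real.exp (P * Real.log t)) := by
      have := Complex.norm_iteratedDeriv_le_of_forall_mem_sphere_norm_le (n := k) (c := z)
        (R := 1) (C := ‖H t‖ * Real.exp (P * Real.log t)) (f := Xi) one_pos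
        h.diff.diffContOnCl (by
          intro y hy
          rw [mem_sphere, dist_eq_norm] at hy
          have e : y = t + (y - t) := by ring
          rw [e]
          apply hPt
          have e2 : y - t = (y - z) + (z - c) + -(3 * I) := by rw [hc]; ring
          rw [e2]
          refine (norm_add₃_le).trans ?_
          rw [hy, hz, norm_neg, norm_mul, norm_I, norm_ofNat]
          norm_num)
      rw [one_pow, div_one] at this
      exact this
    have hb2 : ‖a * g z‖ ≤ k.factorial * Real.exp (P * Real.log t) := by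
      rw [norm_mul, han]
      calc ‖H t‖⁻¹ * ‖g z‖ ≤ ‖H t‖⁻¹ * (k.factorial * (‖H t‖ * Real.exp (P * Real.log t))) := by
            gcongr
        _ = _ := by field_simp
    rcases (norm_nonneg (a * g z)).eq_or_lt with h0 | h0
    · rw [← h0, Real.log_zero]
      have := Real.log_nonneg hkf1
      positivity
    · refine (Real.log_le_log h0 hb2).trans (le_of_eq ?_)
      rw [Real.log_mul (by positivity) (by positivity), Real.log_exp]
  have hci : CircleIntegrable (fun z => Real.log ‖a * g z‖) c 8 := by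
    apply MeromorphicOn.circleIntegrable_log_norm
    rw [abs_of_pos (by norm_num : (0:ℝ) < 8)]
    exact (hgan'.mono sphere_subset_closedBall).meromorphicOn
  have havg := Real.circleAverage_mono_on_of_le_circle hci hbd
  have hlc : -Real.log A ≤ Real.log ‖a * g c‖ := by
    have hgc0 : 0 < ‖g c‖ := norm_pos_iff.2 hgc
    have h12 : 1 / A ≤ ‖a * g c‖ := by
      rw [norm_mul, han, div_le_iff₀ (by linarith)]
      calc (1:ℝ) = ‖H t‖⁻¹ * ‖H t‖ := by field_simp
        _ ≤ ‖H t‖⁻¹ * (A * ‖g c‖) := by gcongr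
        _ = _ := by ring
    have := Real.log_le_log (by positivity) h12
    rwa [one_div, Real.log_inv] at this
  rw [← Finset.sum_mul] at hJ
  have hb1 : Real.log A * 1 ≤ Real.log A * Real.log t := mul_le_mul_of_nonneg_left h3 hlA
  linarith

end

/-- **S_UNIT** -/
theorem S_UNIT_proof : Pool.Agent.H477.E.S_UNIT := unit loc_R

end Pool.Agent.H120.E13
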